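import Pool.Agent.Work.MP_db9399_co.Defs
import Pool.Agent.Work.MP_db9399_da_helper62.Fin2

/-!
Q1 for all large dense graphs: extending total colourings from distance-3 matchings.

For every `η > 0` there is `n₀` such that for every graph `G` with `n ≥ n₀` vertices and maximum
degree `Δ ≥ η n`, every `k ≥ Δ + 2` and every distance-3 matching `H` in `G`, every
total-`k`-colouring of `H` extends to `G`. For `H` empty this is the Total Coloring Conjecture for
all large dense graphs.
-/

namespace Pool.Agent.Results.MP_db9399_co.DenseGraphs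

open _root_.MP_db9399_co

universe u

/-- For every `η > 0` and all sufficiently large graphs `G` with `Δ(G) ≥ η |V(G)|`: if
`k ≥ Δ(G) + 2` and `H` is a distance-3 matching, then every total-`k`-colouring of `H` extends
to `G`. -/
theorem result (η : ℝ) (hη : 0 < η) : ∃ n₀ : ℕ, ∀ (V : Type u) [Fintype V] (G : SimpleGraph V)
    [DecidableRel G.Adj] (k : ℕ), n₀ ≤ Fintype.card V → η * Fintype.card V ≤ G.maxDegree →
    G.maxDegree + 2 ≤ k → ∀ H : G.Subgraph, IsDistThreeMatching H →
    EveryTotalColoringExtends H (Fin k) := by
  obtain ⟨n₀, h⟩ := Pool.Agent.Work.MP_db9399_da.helper62.main2.{u} η hη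
  exact ⟨n₀, fun V _ G _ k hn hd hk H hH => h G k hn hd hk H hH⟩

end Pool.Agent.Results.MP_db9399_co.DenseGraphs
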