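import Pool.Agent.Work.MP_db9399_sx_helper38.Hold

/-!
For every `g > 0` there is `D₀` with the following property. Let `G` be a finite graph with maximum
degree `Δ ≥ D₀`, of any order, and `k ≥ Δ + 2`. Assume that `G` has no almost bipartite almost
component: if `S` and `T` are disjoint vertex sets with `|S| ≤ (1 + g) |T|` and all vertices of `T`
have degree at least `(1 - g) Δ`, then `e(T, V ∖ S) ≥ g Δ |T|`.

Then for every distance-3 matching `H` of `G` every total-`k`-colouring of `H` extends to a
total-`k`-colouring of `G`.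
-/

namespace Pool.Agent.Results.MP_db9399_co.NoBipartiteParts

open _root_.MP_db9399_co

universe u

open Finset Classical in
/-- Q1 for all graphs of large maximum degree `Δ`, of any order, without almost bipartite almost
components. -/
theorem result : ∀ g : ℝ, 0 < g → ∃ D₀ : ℕ,
    ∀ (V : Type u) [Fintype V] (G : SimpleGraph V) [DecidableRel G.Adj] (k : ℕ),
    D₀ ≤ G.maxDegree → G.maxDegree + 2 ≤ k →
    (∀ S T : Finset V, Disjoint S T → (∀ t ∈ T, (1 - g) * G.maxDegree ≤ (G.degree t : ℝ)) →
      (S.card : ℝ) ≤ (1 + g) * T.card →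
      g * G.maxDegree * T.card ≤ ((G.interedges T (univ \ S)).card : ℝ)) →
    ∀ H : G.Subgraph, IsDistThreeMatching H → EveryTotalColoringExtends H (Fin k) := by
  intro g hg
  obtain ⟨D₀, hD⟩ := Pool.Agent.Work.MP_db9399_sx.helper38.main1.{u} g hg
  refine ⟨D₀, fun V _ G _ k hG hk h1 H hH c₀ t₀ h0 => ?_⟩
  exact hD V G k hG h1 hk H hH c₀ t₀ h0

end Pool.Agent.Results.MP_db9399_co.NoBipartiteParts
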