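import Pool.Agent.Work.MP_db9399_core_helper75.Final

/-!
There is an absolute constant `C` with the following property. Let `G` be a finite graph, let
`k ≥ Δ(G) + 1` and `m` satisfy `k ≥ C (m + 1)`, and suppose that every vertex of `G` has at most `m`
neighbours of degree larger than `k - C (m + 1)`. Then every total-`k`-colouring of every distance-3
matching of `G` extends to a total-`k`-colouring of `G`.

For `m = 0` the condition holds for all graphs `G` as soon as `k ≥ Δ(G) + C`.
-/

namespace Pool.Agent.Results.MP_db9399_co.SparseCore

open _root_.MP_db9399_co

universe u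

/-- Extension with `k ≥ Δ + 1` colours when every vertex has at most `m` neighbours of degree larger
than `k - C (m + 1)`. -/
theorem result : ∃ C : ℕ, ∀ (V : Type u) [Fintype V] (G : SimpleGraph V) [DecidableRel G.Adj]
    (k m : ℕ), G.maxDegree + 1 ≤ k → C * (m + 1) ≤ k →
      (∀ v, ((G.neighborFinset v).filter (fun w => k < G.degree w + C * (m + 1))).card ≤ m) →
      ∀ H : G.Subgraph, IsDistThreeMatching H → EveryTotalColoringExtends H (Fin k) :=
  Pool.Agent.Work.MP_db9399_all.sparse_core_final

end Pool.Agent.Results.MP_db9399_co.SparseCore
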