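import Pool.Agent.Work.MP_db9399_iv_helper38.Final

/-!
The Total Colouring Conjecture for all graphs of large maximum degree, with one precoloured edge.

There is `D₀` such that for every finite graph `G` of maximum degree `Δ ≥ D₀`, every `k ≥ Δ + 2` and
every distance-3 matching `H` in `G` with at most one edge, every total-`k`-colouring of `H` extends
to a total-`k`-colouring of `G`. For `H` empty this is the Total Colouring Conjecture for all graphs
of large maximum degree.
-/

namespace Pool.Agent.Results.MP_db9399_co.TotalColoringLargeDegree

open _root_.MP_db9399_co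

universe u

/-- Q1 for all graphs of large maximum degree and all `H` with at most one edge. -/
theorem result : ∃ D₀ : ℕ,
    ∀ (V : Type u) [Fintype V] (G : SimpleGraph V) [DecidableRel G.Adj] (k : ℕ),
    D₀ ≤ G.maxDegree → G.maxDegree + 2 ≤ k →
    ∀ H : G.Subgraph, IsDistThreeMatching H → H.edgeSet.Subsingleton →
      EveryTotalColoringExtends H (Fin k) := by
  obtain ⟨D₀, hD⟩ := Pool.Agent.Work.MP_db9399_iv_helper38.tcc_large.{u}
  refine ⟨D₀, fun V _ G _ k hG hk H hH h1 => ?_⟩
  exact Pool.Agent.Work.MP_db9399_iv_helper38.ext_of_total (hD V G k hG hk) H hH h1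

end Pool.Agent.Results.MP_db9399_co.TotalColoringLargeDegree
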